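import Pool.Agent.Helper855N.MeanC
import Pool.Agent.Helper855N.MSProof

set_option autoImplicit false

/-!
# The mean value of the number of primes in short windows at almost every dilate of a sequence

Let `t n` be any nondecreasing unbounded sequence with `t (n + 1) ≤ t n ^ β` and let `H n` be any lengths with
`c log (t n) ≤ H n ≤ t n ^ (1 - κ)`. For almost every `α > 0` the mean value of `π(x, H n) log x / H n` at the
points `x = α t n`, `n < N`, for the weights `log log t (n + 1) - log log t n`, tends to `1`.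
-/

namespace Pool.Agent.Results.MP_b09185_nt.MeanAtDilates

open Filter Topology MeasureTheory

/-- `π(x, H)`: the number of primes `p` with `x < p ≤ x + H` -/
noncomputable def primesIn (x H : ℝ) : ℕ := ((Finset.Ioc ⌊x⌋₊ ⌊x + H⌋₊).filter Nat.Prime).card

/-- **The mean value at almost every dilate.** -/
theorem result (κ c : ℝ) (hκ0 : 0 < κ) (hκ1 : κ < 1) (hc : 0 < c)
    (t : ℕ → ℝ) (h3 : ∀ n, 3 ≤ t n) (hmono : Monotone t) (htop : Tendsto t atTop atTop)
    (β : ℝ) (hβ : ∀ n, t (n + 1) ≤ t n ^ β)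
    (H : ℕ → ℝ) (hH : ∀ᶠ n in atTop, c * Real.log (t n) ≤ H n ∧ H n ≤ t n ^ (1 - κ)) :
    ∀ᵐ α : ℝ, 0 < α → Tendsto (fun N : ℕ =>
      (∑ n ∈ Finset.range N, (Real.log (Real.log (t (n + 1))) - Real.log (Real.log (t n))) *
        ((primesIn (α * t n) (H n) : ℝ) * Real.log (α * t n) / H n)) / Real.log (Real.log (t N)))
      atTop (𝓝 1) :=
  Pool.Agent.Helper855N.mean_all Pool.Agent.Helper855N.ms κ c hκ0 hκ1 hc t hmono h3 htop β hβ H hH

end Pool.Agent.Results.MP_b09185_nt.MeanAtDilates
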