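import Pool.Agent.Helper341.Metric.Order
import Pool.Agent.H622R3.SP.Metric

/-!
# `1 - δ ≤ R_H(x) ≤ λ` for all `H ≥ K log x` at once, at the points `x = α ^ b n`

`R_H(x) = π(x, H) log x / H`, where `π(x, H)` is the number of primes in `(x, x + H]`. Let `0 < δ < 1`.
There are `K`, `λ`, `c > 0` such that for EVERY sequence `b n → ∞` of real numbers and almost every `α > 1`
there are infinitely many `N` such that for at least `c N` of the `n < N` the point `x = α ^ b n` satisfies
`1 - δ ≤ R_H(x) ≤ λ` for ALL real `H` with `K log x ≤ H ≤ x`, in particular for `H = (log x) ^ a` for all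
`a ≥ 2` at once if `log x ≥ K`. The constants do not depend on the sequence, which may grow arbitrarily fast
or slowly.

Proof. The integers `m` such that all `x` between `m` and `m + 1` have this property have positive lower
density (starting file `MP_31d0eb_nt.AllScales`, and the passage to the reals in
`Pool.Agent.Helper341.Metric.dens`). The metric theorem for an arbitrary set of integers of positive lower
density is `Pool.Agent.H622R3.SP.metric` (starting library, not used by any result).
-/

set_option autoImplicit false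

open Filter Topology MeasureTheory Pool.Agent.Helper341.Metric

namespace Pool.Agent.Results.MP_b09185_nt.PowersOfAlmostAllNumbers

theorem result (δ : ℝ) (hδ0 : 0 < δ) (hδ1 : δ < 1) :
    ∃ K lam c : ℝ, 0 < K ∧ 0 < lam ∧ 0 < c ∧
      ∀ b : ℕ → ℝ, Tendsto b atTop atTop → ∀ᵐ α : ℝ, 1 < α → ∃ᶠ N : ℕ in atTop,
        c * N ≤ ({n : ℕ | n < N ∧ RightOrder δ K lam (α ^ b n)}.ncard : ℝ) := by
  classical
  obtain ⟨K, lam, c, hK, hlam, hc, S, hS, hdens⟩ := dens δ hδ0 hδ1
  refine ⟨K, lam, c / 2, hK, hlam, by positivity, ?_⟩
  intro b hb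
  have hdens' : ∀ᶠ N : ℕ in atTop,
      c * N ≤ (((Finset.range N).filter (fun m => m ∈ S)).card : ℝ) := by
    filter_upwards [hdens] with N hN
    convert hN
  filter_upwards [Pool.Agent.H622R3.SP.metric S c hc hdens' b hb] with α hα hα1
  refine (hα hα1).mono fun N hN => hN.trans ?_
  rw [← Set.ncard_coe_finset]
  apply Nat.cast_le.2
  apply Set.ncard_le_ncard
  · intro n hn
    rw [Finset.mem_coe, Finset.mem_filter, Finset.mem_range] at hn
    obtain ⟨h1, m, h2, h3, h4⟩ := hn
    exact ⟨h1, hS m h2 _ h3 h4⟩
  · exact (Set.finite_Iio N).subset fun n hn => hn.1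

end Pool.Agent.Results.MP_b09185_nt.PowersOfAlmostAllNumbers
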