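import Pool.Agent.H913.PT.Core
import Pool.Agent.H913.PT.Trans
import Pool.Agent.TH872.An3

/-!
# The mean value of `R_{(log x)^s}(x)` over the translates of arbitrary dense sets by palindromes, by integers with
mirror-dependent digits, and by rearrangements of digits

Definitions used from the starting file `Pool.Agent.TH872.Transfer` (namespace `Pool.Agent.TH872.Tr`): `num b k E`: the
number of the palindromes with exactly `k` digits in base `b` which have the property `E`; `value b k κ c d z`: the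
integer `c + κ v`, where `v` has the pair of digits `d i` at the positions `i` and `k - 1 - i`, for `i < k / 2`, and, if
`k` is odd, the middle digit `z`; `Prob b k w u E`: the probability of the event `E` if the pairs `d i` and the digit `z`
are chosen independently of each other with the distributions `w i` and `u`; `Pairs b k η w`: the `w i` are
distributions of pairs of digits, and two independent copies of the pair number `i` (`i ≥ 1`) differ in both digits with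
a probability of at least `η`; and from `Pool.Agent.TH872.An1` (namespace `Pool.Agent.TH872.An`): `Spread b k η d`: the
integers `d i` (`i < k`) are digits in base `b`, and no digit is taken at more than `(1 - η) k` of the `k` places;
`V b d σ`: the integer with the permuted digits, thus the integer with the digit `d (σ i)` at the place `i`, in base `b`.
-/

set_option autoImplicit false

namespace Pool.Agent.Results.MP_b09185_nt.TranslatesByPalindromes

open Finset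
open Pool.Agent.TH872.Tr (num value Prob Pairs)
open Pool.Agent.TH872.An (Spread V)

/-- The number of the primes in `(n, n + y]`. -/
def primesIn (n y : ℕ) : ℕ := ((Ioc n (n + y)).filter Nat.Prime).card

/-- The ratio `R_h(x) = (log x / h(x)) (π(x + h(x)) - π(x))` for `h(x) = (log x) ^ s`. -/
noncomputable def ratio (s x : ℝ) : ℝ :=
  Real.log x / Real.log x ^ s * ((Nat.primeCounting ⌊x + Real.log x ^ s⌋₊ : ℝ) - Nat.primeCounting ⌊x⌋₊)

open Classical in
/-- Fixed lengths, with `N = b ^ k`: for all integers `y` with `k ^ l ≤ y ≤ B N` the average of `primesIn (a + n) y` over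
the `a ∈ A` differs from `y / log N` by at most `ε y / log N`, and at least `(1 / 4 - ε) |A|` elements `a` of `A` have at
least `(ε / 32) y / log N` primes in `(a + n, a + n + y]`. -/
noncomputable def Fixed (ε : ℝ) (l b B k : ℕ) (A : Finset ℕ) (n : ℕ) : Prop :=
  ∀ y : ℕ, (k : ℝ) ^ l ≤ y → y ≤ B * b ^ k →
    |(∑ a ∈ A, (primesIn (a + n) y : ℝ)) * Real.log ((b ^ k : ℕ) : ℝ) - A.card * y| ≤ ε * (A.card * y) ∧
    (1 / 4 - ε) * A.card ≤
      ((A.filter fun a => ε / 32 * y ≤ (primesIn (a + n) y : ℝ) * Real.log ((b ^ k : ℕ) : ℝ)).card : ℝ)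

open Classical in
/-- The lengths `(log x) ^ s` at `x`: for all real exponents `s` with `l ≤ s ≤ S` the average of the ratio `R_{(log x)^s}(x)`
over the points `x = a + n`, `a ∈ A`, of the translate differs from `1` by at most `ε`, and the ratio is at least `ε / 32`
at least at `(1 / 4 - ε) |A|` of these points. -/
noncomputable def Varying (ε : ℝ) (l S : ℕ) (A : Finset ℕ) (n : ℕ) : Prop :=
  ∀ s : ℝ, (l : ℝ) ≤ s → s ≤ S →
    |∑ a ∈ A, ratio s ((a + n : ℕ) : ℝ) - A.card| ≤ ε * A.card ∧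
    (1 / 4 - ε) * A.card ≤ ((A.filter fun a => ε / 32 ≤ ratio s ((a + n : ℕ) : ℝ)).card : ℝ)

/-- Both properties of the translate `A + n`. -/
def Good (ε : ℝ) (l S b B k : ℕ) (A : Finset ℕ) (n : ℕ) : Prop := Fixed ε l b B k A n ∧ Varying ε l S A n

lemma Good.mono {ε : ℝ} {l l' S b B k : ℕ} (hk : 1 ≤ k) (hl : l ≤ l') {A : Finset ℕ} {n : ℕ} (h : Good ε l S b B k A n) :
    Good ε l' S b B k A n := by
  refine ⟨?_, ?_⟩
  · intro y hy1 hy2
    exact h.1 y ((pow_le_pow_right₀ (by exact_mod_cast hk) hl).trans hy1) hy2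
  · intro s hs1 hs2
    exact h.2 s (le_trans (by exact_mod_cast hl) hs1) hs2

/-- the conditions on the set `A` -/
def Dense (b B C k : ℕ) (A : Finset ℕ) : Prop := A ⊆ Icc 1 (B * b ^ k) ∧ ((b ^ k : ℕ) : ℝ) / (k : ℝ) ^ C ≤ A.card

lemma good_of {ε : ℝ} (hε : 0 < ε) {l S b B k : ℕ} {A : Finset ℕ} {n : ℕ}
    (h0 : Pool.Agent.H913.PT.Good0 (ε / 8) l b B k A n) (h1 : Pool.Agent.H913.PT.Good1 ε l S A n) : Good ε l S b B k A n := by
  classical
  refine ⟨?_, ?_⟩
  · intro y hy1 hy2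
    obtain ⟨g1, F, g2, g3, g4⟩ := h0 y hy1 hy2
    have hcy : 0 ≤ (A.card : ℝ) * y := mul_nonneg (Nat.cast_nonneg _) (Nat.cast_nonneg _)
    have hc : 0 ≤ (A.card : ℝ) := Nat.cast_nonneg _
    refine ⟨?_, ?_⟩
    · have e1 : |(∑ a ∈ A, (primesIn (a + n) y : ℝ)) * Real.log ((b ^ k : ℕ) : ℝ) - A.card * y| ≤ ε / 8 * (A.card * y) := g1
      refine e1.trans (mul_le_mul_of_nonneg_right (by linarith) hcy)
    · have e1 : (F.card : ℝ) ≤
          ((A.filter fun a => ε / 32 * y ≤ (primesIn (a + n) y : ℝ) * Real.log ((b ^ k : ℕ) : ℝ)).card : ℝ) := by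
        apply Nat.cast_le.2
        apply card_le_card
        intro a ha
        rw [mem_filter]
        refine ⟨g2 ha, ?_⟩
        have e2 : ε / 8 / 2 * y ≤ (primesIn (a + n) y : ℝ) * Real.log ((b ^ k : ℕ) : ℝ) := g3 a ha
        have hy0 : (0 : ℝ) ≤ y := Nat.cast_nonneg _
        refine le_trans ?_ e2
        apply mul_le_mul_of_nonneg_right _ hy0
        linarith
      refine le_trans ?_ (g4.trans e1)
      apply mul_le_mul_of_nonneg_right _ hc
      linarith
  · intro s hs1 hs2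
    obtain ⟨g1, F, g2, g3, g4⟩ := h1 s hs1 hs2
    refine ⟨g1, g4.trans ?_⟩
    apply Nat.cast_le.2
    apply card_le_card
    intro a ha
    rw [mem_filter]
    exact ⟨g2 ha, g3 a ha⟩

/-- the general theorem at the scale `b ^ k` -/
lemma core (b B F e : ℕ) (hb : 2 ≤ b) (hF : 1 ≤ F) (he : B + 3 ≤ e) (C U : ℕ) (ε : ℝ) (hε : 0 < ε) (hε1 : ε ≤ 1 / 4) :
    ∃ V : ℕ, ∀ D : ℕ, ∃ l : ℕ, ∀ S : ℕ, ∃ k₀ : ℕ, ∀ k : ℕ, k₀ ≤ k → ∀ (ι : Type) (Ω : Finset ι) (p : ι → ℝ) (Y : ι → ℤ),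
    Pool.Agent.W93.AU.Law b F D V (k + e) Ω p Y → (∀ ω ∈ Ω, 4 * |Y ω| < ((b ^ (k + e) : ℕ) : ℤ)) →
    ∀ A : Finset ℕ, Dense b B C k A → ∀ E : ι → Prop, [DecidablePred E] →
    (∀ ω ∈ Ω, E ω → 0 < Y ω ∧ ¬ Good ε l S b B k A (Y ω).toNat) →
    ∑ ω ∈ Ω, (if E ω then p ω else 0) ≤ 1 / (k : ℝ) ^ U := by
  obtain ⟨V, hV⟩ := Pool.Agent.H913.PT.core b B F e hb hF he C U ε hε hε1
  refine ⟨V, fun D => ?_⟩
  obtain ⟨l, hl⟩ := hV D
  refine ⟨l, fun S => ?_⟩
  obtain ⟨k₀, h0⟩ := hl S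
  refine ⟨k₀, fun k hk ι Ω p Y hlaw hY A hA E _ hE => ?_⟩
  exact h0 k hk ι Ω p Y hlaw hY A hA.1 hA.2 E (fun ω hω hEω => ⟨(hE ω hω hEω).1, fun h => (hE ω hω hEω).2 (good_of hε h.1 h.2)⟩)

/-- random integers with mirror-dependent digits -/
lemma mir (b B C U : ℕ) (hb : 2 ≤ b) (κ : ℤ) (hκ : κ ≠ 0) (ε : ℝ) (hε : 0 < ε) (hε1 : ε ≤ 1 / 4) (η : ℝ) (hη : 0 < η) :
    ∃ l₀ : ℕ, ∀ l : ℕ, l₀ ≤ l → ∀ S : ℕ, Pool.Agent.H913.PT.RareAt b B U κ
      (fun k bad => ∃ A : Finset ℕ, Dense b B C k A ∧ ∀ n : ℤ, bad n → 0 < n ∧ ¬ Good ε l S b B k A n.toNat) η := by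
  classical
  obtain ⟨e, he⟩ : ∃ e, e = B + 3 * κ.natAbs + 3 := ⟨_, rfl⟩
  obtain ⟨V, hV⟩ := core b B (Pool.Agent.TH872.Mir.FF0 b κ) e hb (Pool.Agent.TH872.Mir.FF0_pos b κ hκ) (by omega) C U ε hε hε1
  obtain ⟨D0, hD0⟩ := Pool.Agent.TH872.Mir.mir_law b hb η hη κ e 0 V
  obtain ⟨D1, hD1⟩ := Pool.Agent.TH872.Mir.mir_law b hb η hη κ e 1 V
  obtain ⟨l0, hl0⟩ := hV D0
  obtain ⟨l1, hl1⟩ := hV D1
  refine ⟨l0 + l1, fun l hl S s hs => ?_⟩
  obtain ⟨k0, h0⟩ := hl0 S
  obtain ⟨k1, h1⟩ := hl1 S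
  refine ⟨k0 + k1 + 1, fun m hm w hw cc hcc bad hbad E _ hE => ?_⟩
  obtain ⟨A, hA, hbad⟩ := hbad
  have hY : ∀ g ∈ Pool.Agent.TH872.Mir.Gs b m,
      4 * |cc + κ * (Pool.Agent.TH872.Mir.val b (2 * m + s) g : ℕ)| < ((b ^ (2 * m + s + e) : ℕ) : ℤ) := by
    intro g hg
    have h2 : ((Pool.Agent.TH872.Mir.val b (2 * m + s) g : ℕ) : ℤ) ≤ 2 * (b : ℤ) ^ (2 * m + s) := by
      exact_mod_cast (Pool.Agent.TH872.Mir.val_lt b m s (by omega) g hg).le
    have h3 : |cc + κ * (Pool.Agent.TH872.Mir.val b (2 * m + s) g : ℕ)| ≤ (b : ℤ) ^ (2 * m + s + (B + 3 * κ.natAbs)) := by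
      calc |cc + κ * (Pool.Agent.TH872.Mir.val b (2 * m + s) g : ℕ)| ≤
            |cc| + |κ * (Pool.Agent.TH872.Mir.val b (2 * m + s) g : ℕ)| := abs_add_le _ _
        _ = |cc| + |κ| * (Pool.Agent.TH872.Mir.val b (2 * m + s) g : ℕ) := by
            rw [abs_mul, abs_of_nonneg (by positivity : (0 : ℤ) ≤ ((Pool.Agent.TH872.Mir.val b (2 * m + s) g : ℕ) : ℤ))]
        _ ≤ |cc| + |κ| * (2 * (b : ℤ) ^ (2 * m + s)) := by
            have := mul_le_mul_of_nonneg_left h2 (abs_nonneg κ)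
            linarith
        _ ≤ _ := hcc
    have h4 : (4 : ℤ) < (b : ℤ) ^ 3 := by
      have : (2 : ℤ) ^ 3 ≤ (b : ℤ) ^ 3 := pow_le_pow_left₀ (by norm_num) (by exact_mod_cast hb) 3
      linarith
    have h5 : (0 : ℤ) < (b : ℤ) ^ (2 * m + s + (B + 3 * κ.natAbs)) := by
      have : (0 : ℤ) < b := by exact_mod_cast (by omega : 0 < b)
      positivity
    have h6 : ((b ^ (2 * m + s + e) : ℕ) : ℤ) = (b : ℤ) ^ 3 * (b : ℤ) ^ (2 * m + s + (B + 3 * κ.natAbs)) := by
      rw [he]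
      push_cast
      rw [← pow_add]
      congr 1
      ring
    rw [h6]
    nlinarith
  have hs01 : s = 0 ∨ s = 1 := by omega
  have hk1 : 1 ≤ 2 * m + s := by omega
  rcases hs01 with rfl | rfl
  · exact h0 (2 * m + 0) (by omega) _ _ _ _ (hD0 m (2 * m + 0 + e) rfl (by omega) w hw cc) hY A hA E (fun g hg hEg => by
      obtain ⟨c1, c2⟩ := hbad _ (hE g hg hEg)
      exact ⟨c1, fun hG => c2 (hG.mono hk1 (by omega))⟩)
  · exact h1 (2 * m + 1) (by omega) _ _ _ _ (hD1 m (2 * m + 1 + e) rfl (by omega) w hw cc) hY A hA E (fun g hg hEg => by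
      obtain ⟨c1, c2⟩ := hbad _ (hE g hg hEg)
      exact ⟨c1, fun hG => c2 (hG.mono hk1 (by omega))⟩)

/-- Let `b ≥ 2`, `B`, `C`, `U`, `κ ≠ 0`, `η > 0` and `0 < ε ≤ 1 / 4` be fixed. Then there is an exponent `l` such that for
every `S` and every large `k`, with `N = b ^ k`, every integer `c` with `|c| ≤ B N` and EVERY set `A` of at least
`N / k ^ C` integers in `[1, B N]` the following holds for the integers `n = c + κ v`, if `v` runs through one of the
families below: if `n` is positive, then, except for a proportion of at most `1 / k ^ U` of the family,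

* for all real `s` with `l ≤ s ≤ S` the average of the ratio `R_{(log x)^s}(x)` over the points `x = a + n`, `a ∈ A`, is
  within `ε` of `1`, and the ratio is at least `ε / 32` at least at `(1 / 4 - ε) |A|` of these points;
* for all integers `y` with `k ^ l ≤ y ≤ B N` the average over `a ∈ A` of the number of the primes in `(a + n, a + n + y]`
  is within `ε y / log N` of `y / log N`, and at least `(1 / 4 - ε) |A|` elements `a` of `A` have at least
  `(ε / 32) y / log N` primes in `(a + n, a + n + y]`.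

(1) The palindromes `v` with exactly `k` digits in base `b`.

(2) The random integers `v` with `k` digits in base `b` such that the pairs formed by the digits at the positions `i`
and `k - 1 - i` are independent of each other for different `i`, while the digits in a pair may depend on each other in
an arbitrary way; the distributions of the pairs are arbitrary, only two independent copies of a pair (with `i ≥ 1`)
should differ in both digits with a probability of at least `η`.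

(3) The rearrangements of arbitrary `k` digits in base `b` none of which is taken at more than `(1 - η) k` places. -/
theorem result (b B C U : ℕ) (hb : 2 ≤ b) (κ : ℤ) (hκ : κ ≠ 0) (η ε : ℝ) (hη : 0 < η) (hε : 0 < ε) (hε1 : ε ≤ 1 / 4) :
    ∃ l : ℕ, ∀ S : ℕ, ∃ k₀ : ℕ, ∀ k : ℕ, k₀ ≤ k → ∀ c : ℤ, |c| ≤ B * (b : ℤ) ^ k →
    ∀ A : Finset ℕ, A ⊆ Icc 1 (B * b ^ k) → ((b ^ k : ℕ) : ℝ) / (k : ℝ) ^ C ≤ A.card →
      (num b k (fun v => 0 < c + κ * v ∧ ¬ Good ε l S b B k A (c + κ * v).toNat) : ℝ) ≤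
        num b k (fun _ => True) / (k : ℝ) ^ U ∧
      (∀ (w : ℕ → ℕ × ℕ → ℝ) (u : ℕ → ℝ), Pairs b k η w → (∀ a, 0 ≤ u a) → ∑ a ∈ range b, u a = 1 →
        Prob b k w u (fun d z => 0 < value b k κ c d z ∧ ¬ Good ε l S b B k A (value b k κ c d z).toNat) ≤
          1 / (k : ℝ) ^ U) ∧
      (∀ d : Fin k → ℕ, Spread b k η d → ∀ E : Finset (Equiv.Perm (Fin k)),
        (∀ σ ∈ E, 0 < c + κ * V b d σ ∧ ¬ Good ε l S b B k A (c + κ * V b d σ).toNat) →
        (E.card : ℝ) ≤ k.factorial / (k : ℝ) ^ U) := by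
  classical
  -- rearrangements
  obtain ⟨e, he⟩ : ∃ e, e = B + κ.natAbs + 3 := ⟨_, rfl⟩
  obtain ⟨V', hV⟩ := core b B (Pool.Agent.TH872.An.FA b κ) e hb (Pool.Agent.TH872.An.FA_pos b hb κ hκ) (by omega) C U ε hε hε1
  obtain ⟨D, K2, hD⟩ := Pool.Agent.TH872.An.an_law b hb η hη κ e V'
  obtain ⟨l1, hl1⟩ := hV D
  -- palindromes and mirror-dependent digits
  have hη2 : (0 : ℝ) < 1 / (b : ℝ) ^ 2 := by
    have : (0 : ℝ) < b := by exact_mod_cast (by omega : 0 < b)
    positivity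
  obtain ⟨l2, h2⟩ := mir b B C U hb κ hκ ε hε hε1 η hη
  obtain ⟨l3, h3⟩ := mir b B C U hb κ hκ ε hε hε1 _ hη2
  refine ⟨l1 + l2 + l3, fun S => ?_⟩
  obtain ⟨k1, h1⟩ := hl1 S
  obtain ⟨k4, h4⟩ := Pool.Agent.H913.PT.transfer2 b B U hb κ _ η (h2 (l1 + l2 + l3) (by omega) S) (h3 (l1 + l2 + l3) (by omega) S)
  refine ⟨k1 + K2 + k4 + 1, fun k hk c hc A hA1 hA2 => ?_⟩
  obtain ⟨g1, g2⟩ := h4 k (by omega) c hc
    (fun n => 0 < n ∧ ¬ Good ε (l1 + l2 + l3) S b B k A n.toNat) ⟨A, ⟨hA1, hA2⟩, fun n hn => hn⟩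
  refine ⟨g2, g1, fun d hd E hE => ?_⟩
  have hY : ∀ σ ∈ (univ : Finset (Equiv.Perm (Fin k))), 4 * |c + κ * (V b d σ : ℕ)| < ((b ^ (k + e) : ℕ) : ℤ) := by
    intro σ _
    have h5 := Pool.Agent.TH872.An.size b B hb κ k _ (Pool.Agent.TH872.An.V_lt hd (by omega) σ) c hc
    have h6 : ((b ^ (k + e) : ℕ) : ℤ) = (b : ℤ) ^ 3 * ((b ^ (k + (B + κ.natAbs)) : ℕ) : ℤ) := by
      rw [he]
      push_cast
      rw [← pow_add]
      congr 1
      ring
    have h7 : (8 : ℤ) ≤ (b : ℤ) ^ 3 := by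
      have : (2 : ℤ) ^ 3 ≤ (b : ℤ) ^ 3 := pow_le_pow_left₀ (by norm_num) (by exact_mod_cast hb) 3
      linarith
    have h8 : (0 : ℤ) < ((b ^ (k + (B + κ.natAbs)) : ℕ) : ℤ) := by
      exact_mod_cast Nat.pow_pos (by omega)
    rw [h6]
    nlinarith
  have h := h1 k (by omega) _ univ (fun _ => 1 / (k.factorial : ℝ)) (fun σ => c + κ * (V b d σ : ℕ))
    (hD k (k + e) rfl (by omega) d hd c) hY A ⟨hA1, hA2⟩ (fun σ => σ ∈ E) (fun σ _ hσ => by
      obtain ⟨c1, c2⟩ := hE σ hσ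
      exact ⟨c1, fun hG => c2 (hG.mono (by omega) (by omega))⟩)
  have h9 := Pool.Agent.TH872.An.count_perm k (fun σ => σ ∈ E) _ h
  rw [filter_mem_eq_inter, univ_inter, mul_one_div] at h9
  exact h9

end Pool.Agent.Results.MP_b09185_nt.TranslatesByPalindromes
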